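import Pool.Agent.Y772.SG.Sgn

/-!
# Periodicity of `Ps`
-/

set_option autoImplicit false

open NumberField Complex Filter Topology

namespace Pool.Agent.Y772.SG

open Pool.Agent.Y773

set_option linter.unusedSectionVars false

section sg

variable {K : Type} [Field K] [NumberField K] [IsTotallyReal K]

lemma sg_mul (e : InfinitePlace K → ℕ) (x y : K) : sg e (x * y) = sg e x * sg e y := by
  unfold sg
  rw [← Finset.prod_mul_distrib]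
  refine Finset.prod_congr rfl fun w _ => ?_
  rw [map_mul, sign_mul, ← mul_pow]
  congr 1
  push_cast
  rfl

lemma sg_one (e : InfinitePlace K → ℕ) : sg e (1 : K) = 1 := by
  unfold sg
  refine Finset.prod_eq_one fun w _ => ?_
  rw [map_one, sign_one]
  simp

lemma sgn_sq {r : ℝ} (hr : r ≠ 0) : (((SignType.sign r : SignType) : ℤ) : ℂ) ^ 2 = 1 := by
  rcases lt_or_gt_of_ne hr with h | h
  · rw [sign_neg h]; simp
  · rw [sign_pos h]; simp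

lemma sg_sq (e : InfinitePlace K → ℕ) {x : K} (hx : x ≠ 0) : sg e x ^ 2 = 1 := by
  unfold sg
  rw [← Finset.prod_pow]
  refine Finset.prod_eq_one fun w _ => ?_
  rw [← pow_mul, mul_comm, pow_mul, sgn_sq (rl_ne hx), one_pow]

lemma sg_ne (e : InfinitePlace K → ℕ) {x : K} (hx : x ≠ 0) : sg e x ≠ 0 := by
  intro h
  have := sg_sq e hx
  rw [h] at this
  norm_num at this

lemma sg_norm (e : InfinitePlace K → ℕ) {x : K} (hx : x ≠ 0) : ‖sg e x‖ = 1 := by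
  have h1 : ‖sg e x‖ ^ 2 = 1 := by rw [← norm_pow, sg_sq e hx, norm_one]
  nlinarith [norm_nonneg (sg e x)]

lemma sg_le (e : InfinitePlace K → ℕ) (x : K) : ‖sg e x‖ ≤ 1 := by
  unfold sg
  rw [norm_prod]
  refine Finset.prod_le_one (fun w _ => norm_nonneg _) fun w _ => ?_
  rw [norm_pow]
  refine pow_le_one₀ (norm_nonneg _) ?_
  rcases lt_trichotomy (rl w x) 0 with h | h | h
  · rw [sign_neg h]; simp
  · rw [h]; simp
  · rw [sign_pos h]; simp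

lemma sg_conj (e : InfinitePlace K → ℕ) (x : K) : (starRingEnd ℂ) (sg e x) = sg e x := by
  unfold sg
  rw [map_prod]
  refine Finset.prod_congr rfl fun w _ => ?_
  rw [map_pow, map_intCast]

end sg

section qt

variable {K : Type} [Field K] [NumberField K]

lemma qt_spec {𝔟 𝔞 : Ideal (𝓞 K)} (h0 : 𝔟 ≠ ⊥) {x : 𝓞 K} (h : 𝔞 * 𝔟 = Ideal.span {x}) :
    qt 𝔟 x = 𝔞 := by
  have hex : ∃ 𝔞 : Ideal (𝓞 K), 𝔞 * 𝔟 = Ideal.span {x} := ⟨𝔞, h⟩
  unfold qt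
  rw [dif_pos hex]
  have h1 := hex.choose_spec
  exact mul_right_cancel₀ (show (𝔟 : Ideal (𝓞 K)) ≠ 0 from h0) (h1.trans h.symm)

lemma exists_qt {𝔟 : Ideal (𝓞 K)} {x : 𝓞 K} (hx : x ∈ 𝔟) :
    ∃ 𝔞 : Ideal (𝓞 K), 𝔞 * 𝔟 = Ideal.span {x} := by
  have h1 : 𝔟 ∣ Ideal.span {x} := by
    rw [Ideal.dvd_iff_le, Ideal.span_singleton_le_iff_mem]
    exact hx
  obtain ⟨I, hI⟩ := h1
  exact ⟨I, by rw [hI, mul_comm]⟩

lemma qt_mul {𝔟 : Ideal (𝓞 K)} {x : 𝓞 K} (hx : x ∈ 𝔟) : qt 𝔟 x * 𝔟 = Ideal.span {x} := by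
  have hex := exists_qt hx
  unfold qt
  rw [dif_pos hex]
  exact hex.choose_spec

lemma qt_not {𝔟 : Ideal (𝓞 K)} {x : 𝓞 K} (hx : x ∉ 𝔟) : qt 𝔟 x = ⊥ := by
  unfold qt
  rw [dif_neg]
  rintro ⟨𝔞, h⟩
  apply hx
  have h1 : 𝔞 * 𝔟 ≤ 𝔟 := Ideal.mul_le_right
  rw [h, Ideal.span_singleton_le_iff_mem] at h1
  exact h1

/-- units modulo `𝔪` -/
lemma coprime_iff {𝔪 : Ideal (𝓞 K)} {g : 𝓞 K} :
    IsCoprime (Ideal.span {g}) 𝔪 ↔ ∃ z : 𝓞 K, g * z - 1 ∈ 𝔪 := by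
  rw [Ideal.isCoprime_iff_exists]
  constructor
  · rintro ⟨i, hi, j, hj, hij⟩
    obtain ⟨z, rfl⟩ := Ideal.mem_span_singleton'.1 hi
    refine ⟨z, ?_⟩
    have : g * z - 1 = -j := by rw [← hij]; ring
    rw [this]
    exact 𝔪.neg_mem hj
  · rintro ⟨z, hz⟩
    refine ⟨g * z, Ideal.mul_mem_right _ _ (Ideal.mem_span_singleton_self g), -(g * z - 1),
      𝔪.neg_mem hz, by ring⟩

lemma coprime_congr {𝔪 : Ideal (𝓞 K)} {g g' : 𝓞 K} (h : g' - g ∈ 𝔪)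
    (hg : IsCoprime (Ideal.span {g}) 𝔪) : IsCoprime (Ideal.span {g'}) 𝔪 := by
  rw [coprime_iff] at hg ⊢
  obtain ⟨z, hz⟩ := hg
  refine ⟨z, ?_⟩
  have : g' * z - 1 = z * (g' - g) + (g * z - 1) := by ring
  rw [this]
  exact 𝔪.add_mem (𝔪.mul_mem_left _ h) hz

/-- a power of an ideal prime to `𝔪` is generated by an integer `≡ 1` -/
lemma exists_pow {𝔪 𝔞 : Ideal (𝓞 K)} (hm : 𝔪 ≠ ⊥) (ha0 : 𝔞 ≠ ⊥) (h : IsCoprime 𝔞 𝔪) :
    ∃ k : ℕ, 0 < k ∧ ∃ x : 𝓞 K, x ≠ 0 ∧ x - 1 ∈ 𝔪 ∧ 𝔞 ^ k = Ideal.span {x} := by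
  classical
  have ha : 𝔞 ∈ nonZeroDivisors (Ideal (𝓞 K)) := mem_nonZeroDivisors_of_ne_zero ha0
  set n : ℕ := Fintype.card (ClassGroup (𝓞 K)) with hn
  have h1 : ClassGroup.mk0 (⟨𝔞, ha⟩ ^ n) = 1 := by
    rw [map_pow, hn, pow_card_eq_one]
  have h2 : (((⟨𝔞, ha⟩ : nonZeroDivisors (Ideal (𝓞 K))) ^ n : nonZeroDivisors (Ideal (𝓞 K))) :
      Ideal (𝓞 K)).IsPrincipal := (ClassGroup.mk0_eq_one_iff _).1 h1
  have h3 : (𝔞 ^ n).IsPrincipal := h2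
  obtain ⟨y, hy⟩ := h3
  have hy' : 𝔞 ^ n = Ideal.span {y} := hy
  have hn0 : 0 < n := Fintype.card_pos
  have hcop : IsCoprime (Ideal.span {y}) 𝔪 := by
    rw [← hy']
    exact h.pow_left
  obtain ⟨z, hz⟩ := coprime_iff.1 hcop
  have : Finite (𝓞 K ⧸ 𝔪) := Ideal.finiteQuotientOfFreeOfNeBot 𝔪 hm
  have : Finite (𝓞 K ⧸ 𝔪)ˣ := inferInstance
  set u : (𝓞 K ⧸ 𝔪)ˣ := ⟨Ideal.Quotient.mk 𝔪 y, Ideal.Quotient.mk 𝔪 z, by
    rw [← map_mul, ← map_one (Ideal.Quotient.mk 𝔪)]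
    exact Ideal.Quotient.eq.2 hz, by
    rw [← map_mul, ← map_one (Ideal.Quotient.mk 𝔪)]
    refine Ideal.Quotient.eq.2 ?_
    rwa [mul_comm]⟩ with hu
  set m : ℕ := Nat.card (𝓞 K ⧸ 𝔪)ˣ with hmc
  have hm0 : 0 < m := Nat.card_pos
  have hum : u ^ m = 1 := pow_card_eq_one'
  refine ⟨n * m, Nat.mul_pos hn0 hm0, y ^ m, ?_, ?_, ?_⟩
  · refine pow_ne_zero _ ?_
    rintro rfl
    rw [Ideal.span_singleton_eq_bot.2 rfl] at hy'
    exact pow_ne_zero n (show (𝔞 : Ideal (𝓞 K)) ≠ 0 from ha0) hy'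
  · have h4 : Ideal.Quotient.mk 𝔪 (y ^ m) = Ideal.Quotient.mk 𝔪 1 := by
      rw [map_pow, map_one]
      have h5 := congrArg Units.val hum
      simpa [hu] using h5
    exact Ideal.Quotient.eq.1 h4
  · rw [pow_mul, hy', Ideal.span_singleton_pow]

end qt

section main

variable {K : Type} [Field K] [NumberField K] [IsTotallyReal K]

lemma ne_zero_of_coprime {𝔪 : Ideal (𝓞 K)} (hm : 𝔪 ≠ ⊤) {𝔞 : Ideal (𝓞 K)}
    (h : IsCoprime 𝔞 𝔪) : 𝔞 ≠ ⊥ := by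
  rintro rfl
  apply hm
  rw [Ideal.isCoprime_iff_sup_eq] at h
  simpa using h

lemma norm_eta {𝔪 : Ideal (𝓞 K)} {e : InfinitePlace K → ℕ} {η : Ideal (𝓞 K) →*₀ ℂ}
    (hη : IsModChar 𝔪 e η) {𝔞 : Ideal (𝓞 K)} (h : IsCoprime 𝔞 𝔪) : ‖η 𝔞‖ = 1 := by
  obtain ⟨k, hk, x, hx0, hx1, hx⟩ := exists_pow hη.ne_bot (ne_zero_of_coprime hη.ne_top h) h
  have h1 : η 𝔞 ^ k = sg e (x : K) := by
    rw [← map_pow, hx]
    exact hη.sig x hx0 hx1
  have h2 : ‖η 𝔞‖ ^ k = 1 := by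
    rw [← norm_pow, h1, sg_norm e (by simpa using hx0)]
  exact (pow_eq_one_iff_of_nonneg (norm_nonneg _) hk.ne').1 h2

/-- the integral case -/
lemma eta_congr {𝔪 : Ideal (𝓞 K)} {e : InfinitePlace K → ℕ} {η : Ideal (𝓞 K) →*₀ ℂ}
    (hη : IsModChar 𝔪 e η) {g g' : 𝓞 K} (hg : IsCoprime (Ideal.span {g}) 𝔪) (h : g' - g ∈ 𝔪) :
    η (Ideal.span {g'}) * sg e (g' : K) = η (Ideal.span {g}) * sg e (g : K) := by
  obtain ⟨z, hz⟩ := coprime_iff.1 hg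
  have hz' : g' * z - 1 ∈ 𝔪 := by
    have : g' * z - 1 = z * (g' - g) + (g * z - 1) := by ring
    rw [this]
    exact 𝔪.add_mem (𝔪.mul_mem_left _ h) hz
  have hne : ∀ t : 𝓞 K, t * z - 1 ∈ 𝔪 → t * z ≠ 0 := by
    intro t ht h0
    rw [h0, zero_sub] at ht
    exact hη.ne_top ((Ideal.eq_top_iff_one _).2 (by simpa using 𝔪.neg_mem ht))
  have key : ∀ t : 𝓞 K, t * z - 1 ∈ 𝔪 →
      η (Ideal.span {t}) * sg e (t : K) * η (Ideal.span {z}) = sg e (z : K) := by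
    intro t ht
    have h1 := hη.sig (t * z) (hne t ht) ht
    rw [← Ideal.span_singleton_mul_span_singleton, map_mul] at h1
    push_cast at h1
    rw [sg_mul] at h1
    have ht0 : (t : K) ≠ 0 := by
      have := left_ne_zero_of_mul (hne t ht)
      simpa using this
    have h2 := sg_sq e ht0
    linear_combination (sg e (t : K)) * h1 + (sg e (z : K)) * h2
  have hzc : IsCoprime (Ideal.span {z}) 𝔪 := coprime_iff.2 ⟨g, by rwa [mul_comm]⟩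
  have hz0 : η (Ideal.span {z}) ≠ 0 := (hη.supp _).2 hzc
  exact mul_right_cancel₀ hz0 ((key g' hz').trans (key g hz).symm)

/-- periodicity, main case -/
lemma per_main {𝔪 : Ideal (𝓞 K)} {e : InfinitePlace K → ℕ} {η : Ideal (𝓞 K) →*₀ ℂ}
    (hη : IsModChar 𝔪 e η) {𝔟 𝔞 𝔠 : Ideal (𝓞 K)} (hb : 𝔟 ≠ ⊥) {x y : 𝓞 K}
    (hx : 𝔞 * 𝔟 = Ideal.span {x}) (hy : 𝔠 * 𝔟 = Ideal.span {y}) (hxy : y - x ∈ 𝔟 * 𝔪)
    (h : IsCoprime 𝔞 𝔪) :
    IsCoprime 𝔠 𝔪 ∧ η 𝔠 * sg e (y : K) = η 𝔞 * sg e (x : K) := by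
  have ha0 := ne_zero_of_coprime hη.ne_top h
  obtain ⟨k, hk, g, hg0, hg1, hg⟩ := exists_pow hη.ne_bot ha0 h
  obtain ⟨k, rfl⟩ : ∃ l, k = l + 1 := ⟨k - 1, by omega⟩
  have hx0 : x ≠ 0 := by
    rintro rfl
    rw [Ideal.span_singleton_eq_bot.2 rfl] at hx
    exact mul_ne_zero (show (𝔞 : Ideal (𝓞 K)) ≠ 0 from ha0) hb hx
  set 𝔡 : Ideal (𝓞 K) := 𝔞 ^ k with hd
  have hcopd : IsCoprime 𝔡 𝔪 := h.pow_left
  have had : 𝔞 * 𝔡 = Ideal.span {g} := by rw [hd, ← pow_succ', hg]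
  -- g 𝔟 = x 𝔡
  have e1 : Ideal.span {g} * 𝔟 = Ideal.span {x} * 𝔡 := by
    rw [← had, ← hx]; ring
  -- x 𝔠 𝔡 = (g y)
  have e2 : Ideal.span {x} * (𝔠 * 𝔡) = Ideal.span {g * y} := by
    rw [← Ideal.span_singleton_mul_span_singleton, ← hy]
    calc Ideal.span {x} * (𝔠 * 𝔡) = (Ideal.span {x} * 𝔡) * 𝔠 := by ring
      _ = _ := by rw [← e1]; ring
  have hdvd : x ∣ g * y := by
    have h1 : Ideal.span {x} * (𝔠 * 𝔡) ≤ Ideal.span {x} := Ideal.mul_le_left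
    rw [e2, Ideal.span_singleton_le_span_singleton] at h1
    exact h1
  obtain ⟨g', hg'⟩ := hdvd
  have hspx : (Ideal.span {x} : Ideal (𝓞 K)) ≠ 0 := by
    rw [Ne, Ideal.zero_eq_bot, Ideal.span_singleton_eq_bot]
    exact hx0
  have e3 : 𝔠 * 𝔡 = Ideal.span {g'} := by
    rw [hg', ← Ideal.span_singleton_mul_span_singleton] at e2
    exact mul_left_cancel₀ hspx e2
  -- g' - g ∈ 𝔪
  have e4 : g' - g ∈ 𝔪 := by
    have h1 : x * (g' - g) = g * (y - x) := by rw [mul_sub, ← hg']; ring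
    have h2 : g * (y - x) ∈ Ideal.span {x} * (𝔡 * 𝔪) := by
      rw [← mul_assoc, ← e1, mul_assoc]
      exact Ideal.mul_mem_mul (Ideal.mem_span_singleton_self g) hxy
    rw [← h1, Ideal.mem_span_singleton_mul] at h2
    obtain ⟨z, hz, hz2⟩ := h2
    have h3 : z = g' - g := mul_left_cancel₀ hx0 hz2
    rw [← h3]
    have h4 : 𝔡 * 𝔪 ≤ 𝔪 := Ideal.mul_le_right
    exact h4 hz
  have hgc : IsCoprime (Ideal.span {g}) 𝔪 := by
    rw [← had]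
    exact h.mul_left hcopd
  have hg'c := coprime_congr e4 hgc
  have hcc : IsCoprime 𝔠 𝔪 := by
    rw [← e3] at hg'c
    exact hg'c.of_mul_left_left
  refine ⟨hcc, ?_⟩
  have h5 := eta_congr hη hgc e4
  rw [← e3, ← had, map_mul, map_mul] at h5
  have h6 : sg e (g : K) * sg e (y : K) = sg e (x : K) * sg e (g' : K) := by
    rw [← sg_mul, ← sg_mul]
    congr 1
    exact_mod_cast congrArg (algebraMap (𝓞 K) K) hg'
  have hd0 : η 𝔡 ≠ 0 := (hη.supp _).2 hcopd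
  have hgs : sg e (g : K) ^ 2 = 1 := sg_sq e (by simpa using hg0)
  have hxs : sg e (x : K) ^ 2 = 1 := sg_sq e (by simpa using hx0)
  have hgn : sg e (g : K) ≠ 0 := sg_ne e (by simpa using hg0)
  refine mul_right_cancel₀ (mul_ne_zero hd0 hgn) ?_
  linear_combination (sg e (x : K)) * h5 + η 𝔠 * η 𝔡 * h6

end main

/-- PER -/
theorem t_per : StPer := by
  intro K _ _ _ 𝔪 e η hη
  have hle : ∀ 𝔞, ‖η 𝔞‖ ≤ 1 := by
    intro 𝔞
    by_cases h : IsCoprime 𝔞 𝔪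
    · exact (norm_eta hη h).le
    · have : η 𝔞 = 0 := by
        by_contra h0
        exact h ((hη.supp _).1 h0)
      rw [this, norm_zero]
      exact zero_le_one
  refine ⟨hle, fun 𝔞 h => norm_eta hη h, fun 𝔟 hb => ?_⟩
  have hout : ∀ x : 𝓞 K, x ∉ 𝔟 → Ps η e 𝔟 x = 0 := by
    intro x hx
    unfold Ps
    rw [qt_not hx, ← Ideal.zero_eq_bot, map_zero, zero_mul]
  refine ⟨fun x y hxy => ?_, hout, fun x => ?_, fun u x => ?_⟩
  · have hle1 : 𝔟 * 𝔪 ≤ 𝔟 := Ideal.mul_le_left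
    have hxy' : x - y ∈ 𝔟 := hle1 hxy
    by_cases hx : x ∈ 𝔟
    · have hy : y ∈ 𝔟 := by
        have := 𝔟.sub_mem hx hxy'
        rwa [sub_sub_cancel] at this
      have hyx : y - x ∈ 𝔟 * 𝔪 := by
        have := (𝔟 * 𝔪).neg_mem hxy
        rwa [neg_sub] at this
      unfold Ps
      by_cases h1 : IsCoprime (qt 𝔟 x) 𝔪
      · exact (per_main hη hb (qt_mul hx) (qt_mul hy) hyx h1).2.symm
      · by_cases h2 : IsCoprime (qt 𝔟 y) 𝔪
        · exact (per_main hη hb (qt_mul hy) (qt_mul hx) hxy h2).2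
        · have z1 : η (qt 𝔟 x) = 0 := by
            by_contra h0
            exact h1 ((hη.supp _).1 h0)
          have z2 : η (qt 𝔟 y) = 0 := by
            by_contra h0
            exact h2 ((hη.supp _).1 h0)
          rw [z1, z2, zero_mul, zero_mul]
    · have hy : y ∉ 𝔟 := by
        intro hy
        apply hx
        have := 𝔟.add_mem hxy' hy
        rwa [sub_add_cancel] at this
      rw [hout x hx, hout y hy]
  · unfold Ps
    rw [norm_mul]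
    calc ‖η (qt 𝔟 x)‖ * ‖sg e (x : K)‖ ≤ 1 * 1 :=
          mul_le_mul (hle _) (sg_le e _) (norm_nonneg _) zero_le_one
      _ = 1 := one_mul 1
  · have hq : qt 𝔟 ((u : 𝓞 K) * x) = qt 𝔟 x := by
      have hs : Ideal.span {(u : 𝓞 K) * x} = Ideal.span {x} := by
        rw [Ideal.span_singleton_mul_left_unit u.isUnit]
      by_cases hx : x ∈ 𝔟
      · exact qt_spec hb ((qt_mul hx).trans hs.symm)
      · have hx' : (u : 𝓞 K) * x ∉ 𝔟 := by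
          intro h
          apply hx
          rw [← Ideal.span_singleton_le_iff_mem, hs, Ideal.span_singleton_le_iff_mem] at h
          exact h
        rw [qt_not hx, qt_not hx']
    unfold Ps
    rw [hq]
    push_cast
    rw [sg_mul]
    ring

end Pool.Agent.Y772.SG
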